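import Pool.Agent.W458.MF.OStm

/-!
OCNTF: the number of products of a linear factor and of an irreducible polynomial
(subtask MFO-OCNTF).
-/

set_option autoImplicit false

open Polynomial

namespace Pool.Agent.W32.MF

open Pool.Agent.W458.MF

variable {l : ℕ} [Fact l.Prime]

theorem finite_deg (g : ℕ) (S : Set (ZMod l)[X]) (hS : ∀ u ∈ S, u.natDegree = g) : S.Finite := by
  have h1 : (Set.range fun c : Fin (g + 1) → ZMod l => ∑ i : Fin (g + 1), C (c i) * X ^ (i : ℕ)).Finite :=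
    Set.finite_range _
  refine h1.subset ?_
  intro u hu
  refine ⟨fun i => u.coeff i, ?_⟩
  have h2 := hS u hu
  show ∑ i : Fin (g + 1), C (u.coeff i) * X ^ (i : ℕ) = u
  rw [Fin.sum_univ_eq_sum_range (fun i => C (u.coeff i) * X ^ i) (g + 1), ← h2]
  exact (u.as_sum_range_C_mul_X_pow).symm

theorem eval_weilm (γ a t : ZMod l) (h : a ^ 2 + γ = a * t) (u : (ZMod l)[X]) :
    (weilm γ u).eval a = a ^ u.natDegree * u.eval t := by
  unfold weilm
  rw [eval_finsetSum, eval_eq_sum_range, Finset.mul_sum]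
  apply Finset.sum_congr rfl
  intro j hj
  have hj' : j ≤ u.natDegree := Nat.lt_succ_iff.1 (Finset.mem_range.1 hj)
  simp only [eval_mul, eval_C, eval_pow, eval_add, eval_X]
  rw [h, mul_pow]
  have h1 : a ^ u.natDegree = a ^ j * a ^ (u.natDegree - j) := by
    rw [← pow_add]
    congr 1
    omega
  rw [h1]
  ring

theorem reverse_lin (b c : ZMod l) (hb : b ≠ 0) : (C b * X - C c).reverse = C b - C c * X := by
  have h1 : (C b * X - C c : (ZMod l)[X]) = C b * X + C (-c) := by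
    rw [C_neg]
    ring
  rw [h1, reverse_add_C, natDegree_C_mul_X b hb, pow_one, reverse_mul_X, C_neg]
  have h2 : (C b : (ZMod l)[X]).reverse = C b := by
    rw [reverse_C]
  rw [h2]
  ring

/-- one polynomial of the pattern -/
theorem mem_halved (h : St_WM) (g r : ℕ) (κ : (ZMod l)ˣ) (hr : (r : ZMod l) ≠ 0) (s : ZMod l)
    (hs : s ≠ 0) (v : (ZMod l)[X]) (hg : 2 ≤ g) (hvi : v ∈ irrSet g l) (hvh : v ∈ halved g l r 1)
    (hs2 : ((κ : ZMod l) * s ^ 2) ^ 2 ≠ 1) :
    (X - C ((r : ZMod l) * ((κ : ZMod l) * s ^ 2 + ((κ : ZMod l) * s ^ 2)⁻¹))) * v ∈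
      fixSet (g + 1) l ∩ halved (g + 1) l r κ := by
  obtain ⟨hvm, hvd, hvirr⟩ := hvi
  obtain ⟨-, -, hvsq, f, hfm, hfd, hf0, hfs, hfe⟩ := hvh
  set ρ : ZMod l := (r : ZMod l) with hρ
  obtain ⟨b, hb⟩ : ∃ b : ZMod l, b = (κ : ZMod l) * s ^ 2 := ⟨_, rfl⟩
  rw [← hb] at hs2 ⊢
  have hκ0 : (κ : ZMod l) ≠ 0 := κ.ne_zero
  have hb0 : b ≠ 0 := by
    rw [hb]
    exact mul_ne_zero hκ0 (pow_ne_zero _ hs)
  obtain ⟨t, ht⟩ : ∃ t : ZMod l, t = ρ * (b + b⁻¹) := ⟨_, rfl⟩
  rw [← ht]
  obtain ⟨a, ha⟩ : ∃ a : ZMod l, a = ρ * b := ⟨_, rfl⟩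
  obtain ⟨a', ha'⟩ : ∃ a' : ZMod l, a' = ρ * b⁻¹ := ⟨_, rfl⟩
  have ha0 : a ≠ 0 := by
    rw [ha]
    exact mul_ne_zero hr hb0
  have ha0' : a' ≠ 0 := by
    rw [ha']
    exact mul_ne_zero hr (inv_ne_zero hb0)
  have haa : a * a' = ρ ^ 2 := by
    rw [ha, ha']
    field_simp
  have hat : a + a' = t := by
    rw [ha, ha', ht]
    ring
  have hne : a ≠ a' := by
    intro h1
    apply hs2
    rw [ha, ha'] at h1
    have h2 : b = b⁻¹ := mul_left_cancel₀ hr h1
    rw [sq]
    nth_rw 2 [h2]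
    exact mul_inv_cancel₀ hb0
  obtain ⟨hwm, hwl, hwd, -, -⟩ := h l Fact.out (ρ ^ 2)
  have hmon : ((X - C t) * v).Monic := (monic_X_sub_C t).mul hvm
  have hdeg : ((X - C t) * v).natDegree = g + 1 := by
    rw [(monic_X_sub_C t).natDegree_mul hvm, natDegree_X_sub_C, hvd]
    ring
  have hw1 : weilm (ρ ^ 2) (X - C t) = (X - C a) * (X - C a') := by
    rw [hwl, ← hat, ← haa, C_add, C_mul]
    ring
  have hvt : v.eval t ≠ 0 := by
    intro h1
    have h2 := degree_eq_one_of_irreducible_of_root hvirr h1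
    have h3 : v.natDegree = 1 := natDegree_eq_of_degree_eq_some h2
    omega
  have hnr : ∀ z, z ^ 2 + ρ ^ 2 = z * t → z ≠ 0 → (weilm (ρ ^ 2) v).eval z ≠ 0 := by
    intro z hz hz0
    rw [eval_weilm (ρ ^ 2) z t hz v]
    exact mul_ne_zero (pow_ne_zero _ hz0) hvt
  have hz1 := hnr a (by rw [← haa, ← hat]; ring) ha0
  have hz2 := hnr a' (by rw [← haa, ← hat]; ring) ha0'
  refine ⟨⟨t, v, hvm, by omega, hvirr, rfl⟩, hmon, hdeg, ?_, (X - C a) * f,
    (monic_X_sub_C a).mul hfm, ?_, ?_, ?_, ?_⟩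
  · rw [hwm _ _ (monic_X_sub_C t) hvm, hw1, mul_assoc]
    have hirr : ∀ z : ZMod l, Irreducible (X - C z) := fun z => irreducible_X_sub_C z
    rw [squarefree_mul_iff, squarefree_mul_iff]
    refine ⟨?_, (hirr a).squarefree, ?_, (hirr a').squarefree, hvsq⟩
    · rw [(hirr a).isRelPrime_iff_not_dvd, dvd_iff_isRoot, IsRoot.def, eval_mul, eval_sub, eval_X,
        eval_C]
      exact mul_ne_zero (sub_ne_zero.2 hne) hz1
    · rw [(hirr a').isRelPrime_iff_not_dvd, dvd_iff_isRoot, IsRoot.def]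
      exact hz2
  · rw [(monic_X_sub_C a).natDegree_mul hfm, natDegree_X_sub_C, hfd]
    ring
  · rw [mul_coeff_zero, coeff_sub, coeff_X_zero, coeff_C_zero, zero_sub]
    exact mul_ne_zero (neg_ne_zero.2 ha0) hf0
  · obtain ⟨y, hy⟩ := hfs
    rw [Units.val_one, one_mul] at hy
    refine ⟨(κ : ZMod l) * s * ρ * y, ?_⟩
    rw [mul_coeff_zero, coeff_sub, coeff_X_zero, coeff_C_zero, zero_sub]
    have h1 : (κ : ZMod l) * s * ρ * y * ((κ : ZMod l) * s * ρ * y) =
        ((κ : ZMod l) * s * ρ) ^ 2 * (y * y) := by ring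
    rw [h1, ← hy, ha, hb, pow_succ (-1 : ZMod l) g, pow_succ ρ g]
    ring
  · have hcomp : ((X - C a) * f).comp (C (ρ ^ 2) * X) =
        (C (ρ ^ 2) * X - C a) * f.comp (C (ρ ^ 2) * X) := by
      rw [mul_comp, sub_comp, X_comp, C_comp]
    rw [hcomp, reverse_mul_of_domain, reverse_lin _ _ (pow_ne_zero 2 hr),
      hwm _ _ (monic_X_sub_C t) hvm, hw1, mul_coeff_zero, coeff_sub, coeff_X_zero, coeff_C_zero,
      zero_sub]
    have h1 : C (-a * f.coeff 0) * ((X - C a) * (X - C a') * weilm (ρ ^ 2) v) =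
        C (-a) * ((X - C a) * (X - C a')) * (C (f.coeff 0) * weilm (ρ ^ 2) v) := by
      rw [C_mul]
      ring
    rw [h1, hfe, ← haa, C_neg, C_mul]
    ring

theorem ocntf (h : St_WM) (h2 : St_OCNTI) : St_OCNTF := by
  intro g hg
  obtain ⟨c, hc, l₁, hl₁⟩ := h2 (g - 1) (by omega)
  refine ⟨c / 8, by positivity, max l₁ 10, ?_⟩
  intro l hl hll r hlr κ
  have : Fact l.Prime := ⟨hl⟩
  classical
  have hl1 : l₁ ≤ l := (le_max_left _ _).trans hll
  have hl10 : 10 ≤ l := (le_max_right _ _).trans hll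
  have hr : (r : ZMod l) ≠ 0 := by
    rw [Ne, ZMod.natCast_eq_zero_iff]
    exact hlr
  have hκ0 : (κ : ZMod l) ≠ 0 := κ.ne_zero
  set V : Set (ZMod l)[X] := irrSet (g - 1) l ∩ halved (g - 1) l r 1 with hV
  have hVc := hl₁ l hl hl1 r hlr 1
  rw [← hV] at hVc
  set G : Finset (ZMod l) := Finset.univ.filter fun s => s ≠ 0 ∧ ((κ : ZMod l) * s ^ 2) ^ 2 ≠ 1
    with hG
  let tt : ZMod l → ZMod l := fun s =>
    (r : ZMod l) * ((κ : ZMod l) * s ^ 2 + ((κ : ZMod l) * s ^ 2)⁻¹)
  -- the number of the parameters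
  have hGc : l - 5 ≤ G.card := by
    have h3 : (Finset.univ.filter fun s : ZMod l => ¬ (s ≠ 0 ∧ ((κ : ZMod l) * s ^ 2) ^ 2 ≠ 1)) ⊆
        insert 0 (C ((κ : ZMod l) ^ 2) * X ^ 4 - C 1 : (ZMod l)[X]).roots.toFinset := by
      intro s hs
      rw [Finset.mem_filter] at hs
      rw [Finset.mem_insert]
      by_cases hs0 : s = 0
      · exact Or.inl hs0
      · right
        have h4 : ((κ : ZMod l) * s ^ 2) ^ 2 = 1 := by
          by_contra h5
          exact hs.2 ⟨hs0, h5⟩
        rw [Multiset.mem_toFinset, mem_roots']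
        refine ⟨?_, ?_⟩
        · intro h5
          have h6 := congrArg (fun p => coeff p 4) h5
          simp only [coeff_sub, coeff_C_mul_X_pow, coeff_zero] at h6
          rw [if_pos trivial, coeff_C, if_neg (by norm_num), sub_zero] at h6
          exact pow_ne_zero 2 hκ0 h6
        · rw [IsRoot.def]
          simp only [eval_sub, eval_mul, eval_C, eval_pow, eval_X]
          rw [← h4]
          ring
    have h4 : (C ((κ : ZMod l) ^ 2) * X ^ 4 - C 1 : (ZMod l)[X]).roots.toFinset.card ≤ 4 := by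
      refine (Multiset.toFinset_card_le _).trans ((card_roots' _).trans ?_)
      refine (natDegree_sub_le _ _).trans ?_
      rw [natDegree_C]
      exact max_le (natDegree_C_mul_X_pow_le _ _) (by norm_num)
    have h5 := (Finset.card_le_card h3).trans (Finset.card_insert_le _ _)
    have h6 := Finset.card_filter_add_card_filter_not (s := (Finset.univ : Finset (ZMod l)))
      (fun s => s ≠ 0 ∧ ((κ : ZMod l) * s ^ 2) ^ 2 ≠ 1)
    rw [Finset.card_univ, ZMod.card, ← hG] at h6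
    omega
  have hfib : ∀ x ∈ G.image tt, (G.filter fun s => tt s = x).card ≤ 4 := by
    intro x _
    have h3 : (G.filter fun s => tt s = x) ⊆
        (C ((r : ZMod l) * (κ : ZMod l) ^ 2) * X ^ 4 - C (x * (κ : ZMod l)) * X ^ 2 +
          C (r : ZMod l) : (ZMod l)[X]).roots.toFinset := by
      intro s hs
      rw [Finset.mem_filter, hG, Finset.mem_filter] at hs
      obtain ⟨⟨-, hs0, -⟩, hsx⟩ := hs
      rw [Multiset.mem_toFinset, mem_roots']
      refine ⟨?_, ?_⟩
      · intro h5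
        have h6 := congrArg (fun p => coeff p 4) h5
        simp only [coeff_add, coeff_sub, coeff_C_mul_X_pow, coeff_zero] at h6
        rw [if_pos trivial, if_neg (by norm_num), coeff_C, if_neg (by norm_num), sub_zero,
          add_zero] at h6
        exact mul_ne_zero hr (pow_ne_zero 2 hκ0) h6
      · rw [IsRoot.def]
        simp only [eval_add, eval_sub, eval_mul, eval_C, eval_pow, eval_X]
        rw [← hsx]
        simp only [tt]
        field_simp
        ring
    refine (Finset.card_le_card h3).trans ?_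
    refine (Multiset.toFinset_card_le _).trans ((card_roots' _).trans ?_)
    refine (natDegree_add_le _ _).trans (max_le ?_ ?_)
    · refine (natDegree_sub_le _ _).trans (max_le (natDegree_C_mul_X_pow_le _ _) ?_)
      exact (natDegree_C_mul_X_pow_le _ _).trans (by norm_num)
    · rw [natDegree_C]
      norm_num
  have hTc : G.card ≤ 4 * (G.image tt).card := Finset.card_le_mul_card_image G 4 hfib
  set T : Set (ZMod l) := (↑(G.image tt) : Set (ZMod l)) with hT
  have hTn : T.ncard = (G.image tt).card := Set.ncard_coe_finset _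
  -- the injection
  have hfin : (fixSet g l ∩ halved g l r κ).Finite :=
    finite_deg g _ fun u hu => hu.2.2.1
  have hmap : ∀ q ∈ T ×ˢ V, (fun q : ZMod l × (ZMod l)[X] => (X - C q.1) * q.2) q ∈
      fixSet g l ∩ halved g l r κ := by
    rintro ⟨t, v⟩ ⟨ht, hv⟩
    rw [hT, Finset.mem_coe, Finset.mem_image] at ht
    obtain ⟨s, hs, hst⟩ := ht
    rw [hG, Finset.mem_filter] at hs
    have h3 := mem_halved h (g - 1) r κ hr s hs.2.1 v (by omega) hv.1 hv.2 hs.2.2
    rw [Nat.sub_add_cancel (by omega)] at h3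
    have h4 : t = tt s := hst.symm
    show (X - C t) * v ∈ fixSet g l ∩ halved g l r κ
    rw [h4]
    exact h3
  have hinj : Set.InjOn (fun q : ZMod l × (ZMod l)[X] => (X - C q.1) * q.2) (T ×ˢ V) := by
    rintro ⟨t, v⟩ ⟨ht, hv⟩ ⟨t', v'⟩ ⟨ht', hv'⟩ heq
    have heq' : (X - C t) * v = (X - C t') * v' := heq
    have h3 : t' = t := by
      have h4 := congrArg (eval t') heq'
      rw [eval_mul, eval_mul, eval_sub, eval_sub, eval_X, eval_C, eval_C, sub_self, zero_mul] at h4
      rcases mul_eq_zero.1 h4 with h5 | h5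
      · exact sub_eq_zero.1 h5
      · exfalso
        have h6 := degree_eq_one_of_irreducible_of_root hv.1.2.2 h5
        have h7 : v.natDegree = 1 := natDegree_eq_of_degree_eq_some h6
        have h8 : v.natDegree = g - 1 := hv.1.2.1
        omega
    subst h3
    have h4 : v = v' := mul_left_cancel₀ (X_sub_C_ne_zero t') heq'
    rw [h4]
  have hle := Set.ncard_le_ncard_of_injOn _ hmap hinj hfin
  rw [Set.ncard_prod, hTn] at hle
  have hle' : ((G.image tt).card : ℝ) * (V.ncard : ℝ) ≤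
      ((fixSet g l ∩ halved g l r κ).ncard : ℝ) := by exact_mod_cast hle
  refine le_trans ?_ hle'
  have h8 : (l : ℝ) / 8 ≤ ((G.image tt).card : ℝ) := by
    have h9 : l ≤ 8 * (G.image tt).card := by omega
    have h10 : (l : ℝ) ≤ 8 * ((G.image tt).card : ℝ) := by exact_mod_cast h9
    linarith
  have h9 : (l : ℝ) ^ g = l * (l : ℝ) ^ (g - 1) := by
    rw [← pow_succ', Nat.sub_add_cancel (by omega)]
  calc c / 8 * (l : ℝ) ^ g = (l : ℝ) / 8 * (c * (l : ℝ) ^ (g - 1)) := by
        rw [h9]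
        ring
    _ ≤ ((G.image tt).card : ℝ) * (V.ncard : ℝ) :=
        mul_le_mul h8 hVc (by positivity) (by positivity)

end Pool.Agent.W32.MF
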